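import Pool.Agent.TH295.LC
import Pool.Agent.W984.CN.Fin2

/-!
# Linear growth of the coindex and of the connectivity of the spaces of `p`-periodic points

For every `M` there are a fixed-point free system `(X, T)` with `coind_p P_p(X) ≥ M (p - 1) - 1` for
all primes `p`, and a fixed-point free system `(X, T)` with `conn P_p(X) ≥ M (p - 1) - 3` for all
primes `p` with `M (p - 1) ≥ 3`.

The definitions `EJoin` (the join `E_n ℤ_p`), `Per` (the `p`-periodic points), `HasComap` (existence
of a continuous equivariant map from `E_n ℤ_p` to the `p`-periodic points) and `IsConn`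
(`k`-connectedness) are those of the imported files.
-/

set_option autoImplicit false

namespace Pool.Agent.Results.MP_4d0e60_an.LinearCoindConn

open Pool.Agent.W809.CI Pool.Agent.W984.CN

/-- **Theorem.** Let `M` be a natural number. There is a fixed-point free dynamical system `(X, T)`
such that for all primes `p` and all `n ≤ M (p - 1) - 1` there is a continuous equivariant map
`E_n ℤ_p → P_p(X)`; and there is a fixed-point free dynamical system `(X, T)` such that `P_p(X)` is
`(M (p - 1) - 3)`-connected for all primes `p` with `M (p - 1) ≥ 3`. -/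
theorem result (M : ℕ) :
    (∃ (X : Type) (_ : TopologicalSpace X) (T : X ≃ₜ X),
      CompactSpace X ∧ TopologicalSpace.MetrizableSpace X ∧ (∀ x, T x ≠ x) ∧
      ∀ (p : ℕ) [Fact p.Prime] (n : ℕ), n + 1 ≤ M * (p - 1) → HasComap T p n) ∧
    (∃ (X : Type) (_ : TopologicalSpace X) (T : X ≃ₜ X),
      CompactSpace X ∧ TopologicalSpace.MetrizableSpace X ∧ (∀ x, T x ≠ x) ∧
      ∀ (p : ℕ) [Fact p.Prime], 3 ≤ M * (p - 1) → IsConn (M * (p - 1) - 3) (Per T p)) := by
  refine ⟨Pool.Agent.TH295.LC.coind M, ?_⟩
  obtain ⟨X₀, h₀, T₀, h1, h2, h3, h4⟩ := Pool.Agent.TH295.LC.coind M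
  obtain ⟨X, h, T, g1, g2, g3, g4⟩ := conn_of_coind h2 T₀ h3 (fun p => M * (p - 1) - 1)
    (fun p hp hn => h4 p (M * (p - 1) - 1) (by omega))
  refine ⟨X, h, T, g1, g2, g3, fun p hp hM => ?_⟩
  exact g4 p hp.out (by omega)

end Pool.Agent.Results.MP_4d0e60_an.LinearCoindConn
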